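import Pool.Agent.LCB.RelMain
import Pool.Agent.LCB.AdvUpper

/-!
How much advice must a set in `NP` carry in order to be hard for `NEXP`? If the complement of the
set has proofs of length `2 ^ (n ^ o(1))` with `n ^ o(1)` bits of advice, then the set is not hard
for `NEXP` under polynomial-time Turing reductions, relative to every oracle, even together with
`n ^ c` bits of advice and `n ^ c` queries to any set in `NP`. With `n ^ ε` bits of advice no proof
of this algebrizes, not even for sets in `UP` and in `RP` that are padded left cuts of a real
number.
-/

set_option autoImplicit false

namespace Pool.Agent.Results.MP_92db0f_lc.AdviceThreshold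

open Pool.Agent.MP_92db0f_lc_alg Pool.Agent.LCB

/-- (1) Relative to every oracle `O`: for every `c` there is a language `L` in `NEXP` such that for
all sets `S` and `T` in `NP`, if the complement of `S` has certificates of length `2 ^ (n ^ o(1))`,
checked in polynomial time with `n ^ o(1)` bits of advice, then `L` is not decided in polynomial
time with `n ^ c + O(1)` bits of advice, `n ^ c + O(1)` queries to `T`, and any number of queries to
`S` and to `O`. (2) For every sequence of fields `K i` whose elements are numbered injectively by
natural numbers there are an oracle `A`, polynomials `F n i` in `n` variables over `K i`, of degree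
at most 2 in each variable and equal to the characteristic function of `A` on `{0,1}^n`, and a real
number `x` such that for every `k ≥ 1` the padded left cut of `x` is in `UP` and in `RP` relative to
`A` and is decided in polynomial time with at most `n ^ (1 / k)` bits of advice, and every language
in `NEXP` relative to `A` and the `F n i` is in `P` relative to `A` and this padded left cut. -/
theorem result :
    (∀ (O : Set (List Bool)) (c : ℕ), ∃ L, InNEXP O L ∧
      ∀ (S T : Set (List Bool)) (t a : ℕ → ℕ), InNP O S → InNP O T →
        InNAdv O (fun n => 2 ^ t n) a Sᶜ → Subpoly t → Subpoly a → ¬ InPFew c (join O S) T L) ∧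
    ∀ (K : ℕ → Type) [∀ i, Field (K i)] (num : (i : ℕ) → K i → ℕ),
      (∀ i, Function.Injective (num i)) →
      ∃ (A : Set (List Bool)) (F : (n i : ℕ) → MvPolynomial (Fin n) (K i)) (x : ℝ),
        IsExtension A F ∧ ∀ k, 1 ≤ k → InUP A (padCut x k) ∧ InRP A (padCut x k) ∧
          (∃ a : ℕ → ℕ, (∀ n, a n ^ k ≤ n) ∧ InPAdv a (padCut x k)) ∧
          ∀ L, InNEXP (join A (extOracle num F)) L → InP (join A (padCut x k)) L :=
  ⟨lower_bound, fun _ _ num hnum => padded_barrier num hnum⟩

end Pool.Agent.Results.MP_92db0f_lc.AdviceThreshold
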