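import Pool.Agent.FSR.Conv2
import Pool.Agent.FSR.Union
import Pool.Agent.FIM.MainC

/-!
Nondeterministic exponential time is not decided with an oracle in `NP` in `O(n ^ c)` rounds of
parallel queries, with `O(n ^ c)` bits of memory, or with answers that have descriptions of
`O(n ^ c)` bits, for any fixed `c`, even in time `2 ^ O(n ^ c)` and with `O(n ^ c)` bits of advice.
More generally, it is not decided with any number of rounds if the numbers of the answers yes in all
rounds are computed from `O(n ^ c)` bits in time `2 ^ O(n ^ c)`. If nondeterministic exponential time
is equal to `P` with an oracle in `NP`, then this holds for almost all inputs of every large length.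
Every language in `P` with an oracle in `NP` is decided in all these ways for some `c`.
-/

set_option autoImplicit false

namespace Pool.Agent.Results.MP_92db0f_lc.BoundedAdaptivity

open Pool.Agent.FSP (InSpace)
open Pool.Agent.FSR
open Pool.Agent.LCB (InNP)
open Pool.Agent.MP_92db0f_lc_alg (InP InNEXP)

/-- (1) Relative to every oracle `O`, for every `c` and every `r`, there is a language `L` in `NEXP`
which is not in the class `C(c)` of the languages decided in time `2 ^ O(n ^ c)` with `O(n ^ c)` bits
of advice and rounds of `2 ^ O(n ^ c)` parallel questions, each of which asks whether a string of
polynomial length with a property that can be decided in time `2 ^ O(n ^ c)` exists, if for every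
round the number of the answers yes, over all inputs of length `n`, is computed from the advice in
time `2 ^ O(n ^ c)`. Moreover, `L` is in no class `C(e)` at all, or else there is `e` such that for
every `A` in `C(c)` and all large `n` (depending on `A`) the following holds. The languages `A` and
`L` agree on at most `(1/2 + 1/(2 * n ^ r)) * 2 ^ n` strings of length `n`; and if `A` is contained
in `L` or disjoint from `L`, then `A` has at most `n ^ e` strings of length `n`. By (2)-(5) the union
of the classes `C(e)` contains every language in `P` relative to an oracle in `NP`. So if this class
is equal to `NEXP`, then an algorithm as in `C(c)` which may err is wrong on almost half of the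
inputs of every large length, and an algorithm which never errs, but need not give an answer, gives
an answer on at most `2 * n ^ e` inputs of every large length. (2) The class `C(2 * c + 1)` contains
the languages decided with `O(n ^ c)` rounds of such questions, without a condition on the numbers of
the answers yes. For example, the questions may be queries of polynomial length to an oracle in `NP`.
(3) Among them are the languages decided by machines with `O(n ^ c)` bits of memory and of advice
which make `2 ^ O(n ^ c)` steps and adaptive queries of polynomial length to an oracle in `NP`, (4)
and, for `c ≥ 1`, the languages decided in polynomial time with an oracle in `NP` and `O(n ^ c)` bits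
of advice if the list of all answers has a description of `O(n ^ c)` bits for every input, which is
decoded in time `2 ^ O(n ^ c)`. (5) Every language in `P` relative to an oracle in `NP` is as in (3)
and (4) for some `c`. -/
theorem result :
    (∀ (O : Set (List Bool)) (c r : ℕ), ∃ L : Set (List Bool), InNEXP O L ∧ ¬ InCounted c O L ∧
      ((∀ e : ℕ, ¬ InCounted e O L) ∨ ∃ e : ℕ, ∀ A : Set (List Bool), InCounted c O A →
        ∀ᶠ n in Filter.atTop,
          2 * n ^ r * {x : List Bool | x.length = n ∧ (x ∈ A ↔ x ∈ L)}.ncard ≤
            (n ^ r + 1) * 2 ^ n ∧
          (A ⊆ L ∨ Disjoint A L → {x : List Bool | x ∈ A ∧ x.length = n}.ncard ≤ n ^ e))) ∧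
    (∀ (O L : Set (List Bool)) (c : ℕ), InRounds c O L → InCounted (2 * c + 1) O L) ∧
    (∀ (O L : Set (List Bool)) (c : ℕ), InSpace c O L → InRounds c O L) ∧
    (∀ (O L : Set (List Bool)) (c : ℕ), 1 ≤ c → InShort c O L → InRounds c O L) ∧
    ∀ O S L : Set (List Bool), InNP O S → InP S L → ∃ c, 1 ≤ c ∧ InSpace c O L ∧ InShort c O L :=
  ⟨Pool.Agent.FIM.mainC, fun _ _ _ h => counted_of_rounds h, fun _ _ _ h => rounds_of_space h,
    fun _ _ _ hc h => rounds_of_short hc h, fun _ _ _ hS hL => exists_both hS hL⟩

end Pool.Agent.Results.MP_92db0f_lc.BoundedAdaptivity
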