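import Pool.Agent.PFH.UpperG
import Pool.Agent.PFH.UpperQ
import Pool.Agent.PFZ.Conv
import Pool.Agent.PFZ.Lower

/-!
Polynomial-time computations with an oracle in `NP` that decide the languages of nondeterministic
exponential time: the number and the total length of the queries, the length of the certificates,
the memory and the advice. The bounds are optimal relative to oracles that count their own answers
modulo a prime number, and relative to oracles with multilinear extensions.
-/

set_option autoImplicit false

namespace Pool.Agent.Results.MP_92db0f_lc.Frontier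

open Pool.Agent.PFP (InNE)
open Pool.Agent.PFQ (InModP)
open Pool.Agent.PFZ (InQ)
open Pool.Agent.MP_92db0f_lc_alg (InP join)
open Pool.Agent.MP_92db0f_lc_mul (mextOracle)

/-- (1) Relative to every oracle `O` some language in `NE` does not belong to any class
`Q(k, t, s, r, w, α)` with `k ≥ 1`, `t > 0`, `α < 1 / k`, and (`s < 1 / k + 1 / t` or `r < 1 / k` or
`w < 1 / k`), for all prices `π` and for all polynomials `W`, the number of the parallel queries in
a round. (2) If `k ≥ 1`, `0 < t ≤ k ≤ s t`, `s t > 1`, and `α > 1 / k` or (`s > 1 / k + 1 / t`,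
`r > 1 / k` and `w > 1 / k`), then for every prime number `p` there is an oracle `A` such that
`P = Mod_p P` and every language in `NE` belongs to `Q(k, t, s, r, w, α)` relative to `A`, where the
price of a query is its length and one query is asked in each round. (3) For all finite commutative
rings `E 0, E 1, …` whose elements are coded by strings of bits there is an oracle `A` such that
every language in `NE` relative to `A` and its multilinear extension over all rings `E i` belongs to
`Q(k, t, s, r, w, α)` relative to `A`, where again the price of a query is its length and one query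
is asked in each round. -/
theorem result :
    (∀ O : Set (List Bool), ∃ L : Set (List Bool), InNE O L ∧
      ∀ k t s r w α : ℝ, 1 ≤ k → 0 < t → α < 1 / k →
        (s < 1 / k + 1 / t ∨ r < 1 / k ∨ w < 1 / k) → ∀ W π, ¬ InQ O k t s r w α W π L) ∧
    ∀ k t s r w α : ℝ, 1 ≤ k → 0 < t → t ≤ k → k ≤ s * t → 1 < s * t →
      (1 / k < α ∨ (1 / k + 1 / t < s ∧ 1 / k < r ∧ 1 / k < w)) →
      (∀ p : ℕ, p.Prime → ∃ A : Set (List Bool), (∀ L, InModP p A L → InP A L) ∧
        ∀ L, InNE A L → InQ A k t s r w α 1 List.length L) ∧
      ∀ {E : ℕ → Type} [∀ i, CommRing (E i)] {len : ℕ → ℕ}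
        (cod : (i : ℕ) → E i → Fin (len i) → Bool), (∀ i, Function.Injective (cod i)) →
        ∃ A : Set (List Bool), ∀ L, InNE (join A (mextOracle cod A)) L →
          InQ A k t s r w α 1 List.length L := by
  refine ⟨PFZ.lower, fun k t s r w α hk ht htk hkst hst h => ?_⟩
  have hk0 : 0 < k := by linarith
  have h' : 1 < k * α ∨ (1 < k * (s - 1 / t) ∧ 1 < k * r ∧ 1 < k * w) := by
    rcases h with h | ⟨h1, h2, h3⟩
    · exact Or.inl ((div_lt_iff₀' hk0).1 h)
    · exact Or.inr ⟨(div_lt_iff₀' hk0).1 (by linarith), (div_lt_iff₀' hk0).1 h2,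
        (div_lt_iff₀' hk0).1 h3⟩
  constructor
  · intro p hp
    have : Fact p.Prime := ⟨hp⟩
    rcases h' with h | ⟨h1, h2, h3⟩
    · obtain ⟨A, hA, hL⟩ := PFH.upper_adv p ht hk htk hkst hst h
      exact ⟨A, hA, fun L h => PFZ.of_InR (hL L h r w)⟩
    · obtain ⟨A, hA, hL⟩ := PFH.upper_long p ht hk htk hkst h1 h2 h3
      exact ⟨A, hA, fun L h => PFZ.of_InR (hL L h α)⟩
  · intro E _ len cod hcod
    obtain ⟨A, hL⟩ := PFH.upper_ext hk ht htk hkst hst h' cod hcod
    exact ⟨A, fun L h => PFZ.of_InR (hL L h)⟩

end Pool.Agent.Results.MP_92db0f_lc.Frontier
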