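import Pool.Agent.MP_92db0f_lc_thr.Lower4
import Pool.Agent.MP_92db0f_lc_thr.Upper2

/-!
How many long queries to an oracle in `NP` are needed for nondeterministic exponential time `NE`?
The answer that relativizing (and affinely relativizing) arguments can give, up to constant factors.
-/

set_option autoImplicit false

namespace Pool.Agent.Results.MP_92db0f_lc.QueryThreshold

open Pool.Agent.MP_92db0f_lc_alg Pool.Agent.MP_92db0f_lc_mul Pool.Agent.MP_92db0f_lc_thr

/-- Let `a ≥ b ≥ 1`. (1) For every oracle `O` there is a language in `NE` relative to `O` that is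
not decided relative to `O` by any computation in time `2 ^ o(n)` with `o(n ^ (b / a))` bits of
advice and queries to an oracle in `NP`: any number of queries with certificates of length `o(n)`,
and `o(n ^ (b / a))` queries with certificates of length `O(n ^ (a / b))`. (2) For every sequence
of finite commutative rings `E i`, whose elements are coded by the strings of `len i` bits, there
is an oracle `A` such that every language in `NE` relative to `A` and the multilinear extension of
`A` over all the rings `E i` is decided relative to `A` alone, in polynomial time and without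
advice, with `O(n ^ (b / a))` queries of length `O(n)` and one query of length `O(n ^ (a / b))` to
an oracle in `UP`. -/
theorem result {a b : ℕ} (hb : 1 ≤ b) (hab : b ≤ a) :
    (∀ O : Set (List Bool), ∃ L, InNE O L ∧
      ∀ (C : ℕ) (T θ : ℕ → ℕ) (F : ℕ → ℕ → ℕ) (adv : ℕ → List Bool)
        (ω : List Bool → List Bool) (R : List Bool × List Bool → Prop)
        (q : (List Bool × List Bool) × List Bool → List Bool)
        (d : (List Bool × List Bool) × List Bool → Bool),
        (∀ K : ℕ, ∃ n₀, ∀ n ≥ n₀, K * (T n + θ n) ≤ n) →
        (∀ K : ℕ, ∃ n₀, ∀ n ≥ n₀, K * (F n (θ n) + (adv n).length) ^ a ≤ n ^ b) →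
        (∀ n ℓ, C * n ^ a + C < ℓ ^ b → F n ℓ = 0) →
        ¬ Decides O T F adv ω R q d L) ∧
    ∀ {E : ℕ → Type} [∀ i, CommRing (E i)] {len : ℕ → ℕ}
      (cod : (i : ℕ) → E i → Fin (len i) → Bool), (∀ i, Function.Injective (cod i)) →
      ∃ A : Set (List Bool), ∀ L, InNE (join A (mextOracle cod A)) L →
        ∃ (C : ℕ) (T : ℕ → ℕ) (F : ℕ → ℕ → ℕ) (R : List Bool × List Bool → Prop)
          (q : (List Bool × List Bool) × List Bool → List Bool)
          (d : (List Bool × List Bool) × List Bool → Bool),
          (∀ n, 2 ^ T n ≤ C * n + C) ∧ (∀ n, F n 0 ^ a ≤ C * n ^ b + C) ∧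
          (∀ n, F n (C * n + C) ≤ 1) ∧ (∀ n ℓ, C * n ^ a + C < ℓ ^ b → F n ℓ = 0) ∧
          (∀ Q y y', R (Q, y) → R (Q, y') → y = y') ∧
          Decides A T F (fun _ => []) (fun w => w) R q d L :=
  ⟨fun O => lower O hb hab, fun cod hcod => upper hb hab cod hcod⟩

end Pool.Agent.Results.MP_92db0f_lc.QueryThreshold
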